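import Pool.Agent.ATW.Asm0
import Pool.Agent.Helper61_ATW.AVP
import Pool.Agent.Helper61_ATW.HCO
import Pool.Agent.Helper61_ATW.VAL
import Pool.Agent.Helper61_ATW.NR3

/-!
# Squad ATW: assembly, the theorem for block idempotents for the prime 2
-/

open scoped BigOperators

noncomputable section

namespace Pool.Agent.PP.TW

theorem avp_ : AvpStmt := H61.avp

theorem hco_ : HcoStmt := H61.hco sta_ mmv_ TB.zcp_ T5.ker_ T3.loc_

theorem val_ : ValStmt := H61.val T3.inr_ dpv_ zi2_ ht2_

theorem bdv_ : BdvStmt := bdv_of hco_ avp_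

theorem nr3_ : Nr3Stmt := H61.nr3 val_ bdv_ arw_ bws_ rgw_

theorem twa_ : TwaStmt := twa_of nr3_

end Pool.Agent.PP.TW
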