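import Pool.Agent.AT8.Asm
import Pool.Agent.Helper57_AT10.Asm10
import Pool.Agent.Helper11_ZAS.AsmZ
import Pool.Agent.Helper77_ATW.P3M
import Pool.Agent.Helper65_ATW.PR3
import Pool.Agent.Helper77_ATW.FX3
import Pool.Agent.Helper86_ATW.ST3
import Pool.Agent.Helper9_ATW.LN1
import Pool.Agent.Helper65_ATW.DPV
import Pool.Agent.Helper3_ATW.MMV
import Pool.Agent.Helper65_ATW.STA
import Pool.Agent.Helper53_ATW.PYP
import Pool.Agent.Helper76_ATW.GTP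
import Pool.Agent.Helper84_ATW.RGW
import Pool.Agent.Helper23_ATW.HT2
import Pool.Agent.Helper53_ATW.ZI2
import Pool.Agent.Helper34_ATW.BDV
import Pool.Agent.Helper32_ATW.ARW
import Pool.Agent.Helper20_ATW.BWS
import Pool.Agent.Helper45_ATW.LW2
import Pool.Agent.Helper30_ATW.TWA
import Pool.Agent.Helper74_ATW.FNZ

/-!
# Squad ATW: assembly of the rows, up to the rows HCO, AVP, VAL, NR3
-/

open scoped BigOperators

noncomputable section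

namespace Pool.Agent.PP.TW

theorem p3m_ : P3mStmt := H77.p3m

theorem pr3_ : Pr3Stmt := H65.pr3 p3m_

theorem fx3_ : Fx3Stmt := H77.fx3 T2.fxy_ T3.lrk_

theorem st3_ : St3Stmt := H86.st3 T3.dug_ T3.lpw_ T3.fus_ T3.lcj_

theorem ln1_ : Ln1Stmt := H9.ln1 T3.nil_ T8.rg1_ T3.lrk_ K9.rot_

theorem dpv_ : DpvStmt := H65.dpv T3.loc_ T3.lpw_

theorem mmv_ : MmvStmt := H3.mmv ln1_ T3.lsb_ T3.nil_ T8.rg1_ T5.ker_ T3.lrk_

theorem sta_ : StaStmt := H65.sta T10.zlo_ T10.str_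

theorem pyp_ : PypStmt := H53P.pyp_ T8.cpr_

theorem gtp_ : GtpStmt := H76.gtp pyp_

theorem rgw_ : RgwStmt := H84.rgw

theorem ht2_ : Ht2Stmt :=
  H23.ht2 TB.zab_ TB.pjz_ TB.poz_ TB.zcp_ mmv_ T3.inr_ T8.dcg_ T8.nrm_ K9.H34.inx dpv_ T3.loc_

theorem zi2_ : Zi2Stmt := H53.zi2_ p3m_

theorem arw_ : ArwStmt := H32.arw

theorem bws_ : BwsStmt := H20.bws rgw_ T8.dor_

theorem bdv_of (hco : HcoStmt) (avp : AvpStmt) : BdvStmt := H34.bdv hco avp rgw_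

theorem lw2_of (nr3 : Nr3Stmt) : Lw2Stmt :=
  H45.lw2 K9.H34.inx gtp_ ln1_ T8.dat_ pr3_ fx3_ st3_ nr3

theorem twa_of (nr3 : Nr3Stmt) : TwaStmt := H30.twa (lw2_of nr3) T2.fst_ T2.tes_ T2.dvx_

theorem fnz_ : FnzStmt := H74.fnz T2.dza_

end Pool.Agent.PP.TW
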