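import Pool.Agent.ATW.Stmts
import Pool.Agent.AT12.Stmts3

/-!
# Squad ATW: the theorem for block idempotents for odd primes, from squad AT12
-/

noncomputable section

namespace Pool.Agent.PP.TW

open Pool.Agent.Helper51_AWC Pool.Agent.Helper79_WRA Pool.Agent.PP Pool.Agent.PP.KF
open Pool.Agent.PP.K9 Pool.Agent.PP.T3

attribute [local instance] Ideal.Quotient.field

theorem tt_of (tca : T12.TcaStmt) (twa : TwaStmt) : ∀ (ℓ : ℕ) [Fact ℓ.Prime], Tt ℓ := by
  intro ℓ hℓ
  by_cases h2 : ℓ = 2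
  · subst h2
    exact twa
  · intro M _ hM a ha G _ _ e V γ hL hexp hgen
    exact tca ℓ M hM h2 a G e V γ hL (Or.inr ⟨ha, hexp, hgen⟩)

end Pool.Agent.PP.TW
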