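import Pool.Agent.ATW.Asm
import Pool.Agent.ATW.TtOdd
import Pool.Agent.AT12.Asm

/-!
# The theorem for block idempotents, two-generator abelian defect groups, all primes
-/

noncomputable section

namespace Pool.Agent.PP.TW

open Pool.Agent.Helper51_AWC Pool.Agent.Helper79_WRA Pool.Agent.PP Pool.Agent.PP.KF
open Pool.Agent.PP.K9 Pool.Agent.PP.T3

theorem tt_ : ∀ (ℓ : ℕ) [Fact ℓ.Prime], Tt ℓ := tt_of T12.tca_ twa_

end Pool.Agent.PP.TW
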