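import Pool.Agent.AT10.Stmts3

/-!
# Squad ATW: the prime 2, defect groups with two generators: definitions

THEOREM.  `e` a 2-block with an abelian defect group `V` which is generated by two elements and has
exponent `2 ^ a`, `a ≥ 2`.  Then `l(e) ≤ 2 ^ a`, and the alternating sum of `e` is zero.  Everything on
top of squads AT2, AT3, AT5, AT8, ATZ, AT10 (all their statements are proved).

Sketch.  The inertial quotient has order 1 (then `l(e) = 1`) or 3, and then it acts freely on
`V - 1`.  Let `N` be `3` on the `2`-elements and `1` on the elements of odd order, `R` the set of the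
characters in `e` which are fixed by the power map `N`; `l(e) ≤ |R|`.  All heights are zero.  For
`χ, ψ ∈ R` the function `u ↦ vv u χ conj (vv u ψ)` on `V - 1` extends to a function in `Rv M V`
(theorem of Broué and Puig, squad AT10), and the averages of such a function over the cosets of a
subgroup `W ≤ V ^ 2` have all the same residue.  For `χ ∈ R` the numbers `vv (u ^ j) χ` are
`p ± q √-2`.  Let `y` have order `2 ^ a`, `w` an involution in `V ^ 2` not in `⟨y⟩`; `p, q` for `y`, `p', q'`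
for `y w`.  The averages give `p p₀ = p' p₀'` modulo `4` (`p₀, p₀'` for a fixed `ψ ∈ R`), so for one
sign `s` the number `(p + s p')/2` is odd for all `χ ∈ R`, and Bessel's inequality for the vectors
`vv (y ^ j)`, `vv ((y w) ^ j)` gives `|R| ≤ 2 ^ a`.
-/

open scoped BigOperators

noncomputable section

namespace Pool.Agent.PP.TW

open Pool.Agent.Helper51_AWC Pool.Agent.Helper79_WRA Pool.Agent.PP Pool.Agent.PP.KF
open Pool.Agent.PP.K9 Pool.Agent.PP.K9.H97 Pool.Agent.PP.H75 Pool.Agent.PP.T3 Pool.Agent.PP.T2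
open Pool.Agent.PP.T5 Pool.Agent.PP.TB
open Pool.Agent.PP.T8 (rs pw fv rd Ip Rv vv Dat Fr)

attribute [local instance] Ideal.Quotient.field

/-- the square root of `-2` -/
def r2 : ℂ := Complex.I * (Real.sqrt 2 : ℂ)

/-- the sign of `j` modulo `8`: `1` for the powers of `3` -/
def sg8 (j : ℕ) : ℤ := if j % 8 = 1 ∨ j % 8 = 3 then 1 else -1

section defs

variable {G : Type} [Group G]

variable (G) in
/-- `N` acts trivially on the elements of odd order and as `3` on the `2`-elements; its powers act on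
the `2`-elements as all the numbers which are `1` or `3` modulo `8`. -/
structure G3 (N : ℕ) : Prop where
  cop : N.Coprime (Nat.card G)
  reg : ∀ g : G, Reg 2 g → g ^ N = g
  pow : ∀ y : G, El 2 y → y ^ N = y ^ 3
  gen : ∀ j : ℕ, j ≡ 1 [MOD 8] ∨ j ≡ 3 [MOD 8] → ∃ k : ℕ, ∀ y : G, El 2 y → y ^ N ^ k = y ^ j

variable (M : Ideal (integralClosure ℤ ℂ)) [M.IsMaximal]

/-- The situation for the inertial quotient of order `3`: it acts freely on `V - 1`, `y ∈ V` has order
`2 ^ a`, `a ≥ 2`, `w` is an involution, the square of an element of `V` and not a power of `y`. -/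
structure Sw (a : ℕ) (e : G → FF M) (V : Subgroup G) (γ : G → FF M) (b : G → G → FF M)
    (d : G → ℕ) (c : ℕ) (ε : G → ℤ) (y w : G) : Prop where
  dat : Dat M 2 e V γ b d c ε
  fr : Fr V γ
  i3 : ix V γ ≤ 3
  le : 2 ≤ a
  exp : Monoid.exponent V = 2 ^ a
  card : Nat.card V ≤ 4 ^ a
  yV : y ∈ V
  oy : orderOf y = 2 ^ a
  wV : ∃ x ∈ V, w = x ^ 2
  w2 : w ^ 2 = 1
  wy : ∀ k : ℕ, y ^ k ≠ w

/-- The numbers `vv (u ^ j) χ` for `j` odd are `p ± q √-2`. -/
def Vq (a : ℕ) (b : G → G → FF M) (d : G → ℕ) (u : G) (χ : G → ℂ) (p q : ℤ) : Prop :=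
  (∀ j : ℕ, ¬ 2 ∣ j → vv M b d (u ^ j) χ = p + sg8 j * q * r2) ∧ (a ≤ 2 → q = 0) ∧ Odd p

end defs

/-- The theorem for the prime `ℓ` and block idempotents: defect groups with two generators and
exponent `ℓ ^ a`, `a ≥ 2`. -/
def Tt (ℓ : ℕ) [Fact ℓ.Prime] : Prop :=
  ∀ (M : Ideal (integralClosure ℤ ℂ)) [M.IsMaximal], (ℓ : integralClosure ℤ ℂ) ∈ M →
  ∀ (a : ℕ), 2 ≤ a → ∀ (G : Type) [Group G] [Finite G] (e : G → FF M) (V : Subgroup G)
  (γ : G → FF M), Ld ℓ e V γ → Monoid.exponent V = ℓ ^ a →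
  (∃ x y : G, V = Subgroup.closure {x, y}) → YY ℓ ⊤ e = 0

end Pool.Agent.PP.TW
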