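import Pool.Agent.ATW.Stmts
import Pool.Agent.Helper66_K9.Asm
import Pool.Agent.Helper24_AT6.LNC

/-!
# Squad ATW: the class of the abelian groups with two generators, and the reduction theorem

`R2 ℓ`: finite abelian `ℓ`-groups with at most `ℓ ^ 2` elements `x` with `x ^ ℓ = 1`.
-/

open scoped BigOperators

noncomputable section

namespace Pool.Agent.PP.TW

open Pool.Agent.Helper51_AWC Pool.Agent.Helper79_WRA Pool.Agent.PP Pool.Agent.PP.KF
open Pool.Agent.PP.K9 Pool.Agent.PP.K9.H97 Pool.Agent.PP.H75 Pool.Agent.PP.T3 Pool.Agent.PP.T2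

attribute [local instance] Ideal.Quotient.field

/-- finite abelian `ℓ`-groups with at most `ℓ ^ 2` elements `x` with `x ^ ℓ = 1` -/
def R2 (ℓ : ℕ) : (Q : Type) → [Group Q] → Prop := fun Q _ =>
  Finite Q ∧ IsPGroup ℓ Q ∧ (∀ a b : Q, a * b = b * a) ∧ {x : Q | x ^ ℓ = 1}.ncard ≤ ℓ ^ 2

/-- the class is closed under subgroups -/
theorem r2_subCl (ℓ : ℕ) : DF.SubCl (R2 ℓ) := by
  intro Q R _ _ j hj hR
  obtain ⟨h1, h2, h3, h4⟩ := hR
  refine ⟨Finite.of_injective j hj, h2.of_injective j hj, fun a b => hj ?_, ?_⟩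
  · rw [map_mul, map_mul, h3]
  · refine le_trans ?_ h4
    rw [← Set.ncard_image_of_injective _ hj]
    refine Set.ncard_le_ncard ?_ (Set.toFinite _)
    rintro _ ⟨x, hx, rfl⟩
    change j x ^ ℓ = 1
    rw [← map_pow, show x ^ ℓ = 1 from hx, map_one]

/-- the number of the elements with `x ^ ℓ = 1` is the index of the group of the powers -/
theorem ncard_pow {Q : Type} [CommGroup Q] [Finite Q] (ℓ : ℕ) :
    {x : Q | x ^ ℓ = 1}.ncard = (powMonoidHom ℓ : Q →* Q).range.index := by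
  have h1 : Nat.card (powMonoidHom ℓ : Q →* Q).ker * Nat.card (powMonoidHom ℓ : Q →* Q).range =
      Nat.card Q := by
    rw [mul_comm, ← Subgroup.card_mul_index (powMonoidHom ℓ : Q →* Q).ker, mul_comm]
    congr 1
    rw [Subgroup.index_ker]
  have h2 : Nat.card (powMonoidHom ℓ : Q →* Q).range *
      (powMonoidHom ℓ : Q →* Q).range.index = Nat.card Q := Subgroup.card_mul_index _
  have h3 : 0 < Nat.card (powMonoidHom ℓ : Q →* Q).range := Nat.card_pos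
  have h4 : {x : Q | x ^ ℓ = 1}.ncard = Nat.card (powMonoidHom ℓ : Q →* Q).ker := by
    rw [← Nat.card_coe_set_eq]
    exact Nat.card_congr (Equiv.setCongr (by
      ext x
      simp [MonoidHom.mem_ker]))
  rw [h4]
  have h5 : Nat.card (powMonoidHom ℓ : Q →* Q).range * Nat.card (powMonoidHom ℓ : Q →* Q).ker =
      Nat.card (powMonoidHom ℓ : Q →* Q).range * (powMonoidHom ℓ : Q →* Q).range.index := by
    rw [h2, mul_comm, h1]
  exact Nat.eq_of_mul_eq_mul_left h3 h5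

/-- two generators: at most `ℓ ^ 2` elements of order dividing `ℓ` -/
theorem ncard_le {Q : Type} [CommGroup Q] [Finite Q] {ℓ : ℕ} (hℓ : 0 < ℓ) {x y : Q}
    (h : ∀ q : Q, q ∈ Subgroup.closure ({x, y} : Set Q)) :
    {x : Q | x ^ ℓ = 1}.ncard ≤ ℓ ^ 2 := by
  rw [ncard_pow]
  set A := (powMonoidHom ℓ : Q →* Q).range with hA
  have hmem : ∀ q : Q, q ^ ℓ ∈ A := fun q => ⟨q, rfl⟩
  change Nat.card (Q ⧸ A) ≤ ℓ ^ 2
  let F : Fin ℓ × Fin ℓ → Q ⧸ A := fun ij => ((x ^ (ij.1 : ℕ) * y ^ (ij.2 : ℕ) : Q) : Q ⧸ A)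
  have hF : Function.Surjective F := by
    intro q
    obtain ⟨q, rfl⟩ := QuotientGroup.mk_surjective q
    obtain ⟨m, n, rfl⟩ := Subgroup.mem_closure_pair.1 (h q)
    have key : ∀ (z : Q) (m : ℤ), ∃ i : Fin ℓ, ((z ^ (i : ℕ) : Q) : Q ⧸ A) = ((z ^ m : Q) : Q ⧸ A) := by
      intro z m
      have h0 : 0 ≤ m % (ℓ : ℤ) := Int.emod_nonneg _ (by exact_mod_cast hℓ.ne')
      have h1 : m % (ℓ : ℤ) < ℓ := Int.emod_lt_of_pos _ (by exact_mod_cast hℓ)
      refine ⟨⟨(m % (ℓ : ℤ)).toNat, by omega⟩, ?_⟩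
      rw [QuotientGroup.eq]
      have h2 : (z ^ (m % (ℓ : ℤ)).toNat)⁻¹ * z ^ m = (z ^ (m / (ℓ : ℤ))) ^ ℓ := by
        rw [← zpow_natCast z, Int.toNat_of_nonneg h0, ← zpow_neg, ← zpow_add, ← zpow_natCast,
          ← zpow_mul]
        congr 1
        have := Int.emod_add_mul_ediv m ℓ
        have h4 : m / (ℓ : ℤ) * ℓ = ℓ * (m / (ℓ : ℤ)) := mul_comm _ _
        omega
      change (z ^ (m % (ℓ : ℤ)).toNat)⁻¹ * z ^ m ∈ A
      rw [h2]
      exact hmem _
    obtain ⟨i, hi⟩ := key x m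
    obtain ⟨j, hj⟩ := key y n
    refine ⟨(i, j), ?_⟩
    change ((x ^ (i : ℕ) * y ^ (j : ℕ) : Q) : Q ⧸ A) = ((x ^ m * y ^ n : Q) : Q ⧸ A)
    rw [QuotientGroup.mk_mul, QuotientGroup.mk_mul, hi, hj]
  have h1 := Nat.card_le_card_of_surjective F hF
  rw [Nat.card_prod, Nat.card_eq_fintype_card (α := Fin ℓ), Fintype.card_fin, ← sq] at h1
  exact h1

/-- a subgroup which generates `Q` together with the `ℓ`-th powers is everything -/
theorem frat {Q : Type} [CommGroup Q] [Finite Q] {ℓ : ℕ} [hℓ : Fact ℓ.Prime] (hp : IsPGroup ℓ Q)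
    (H : Subgroup Q) (h : H ⊔ (powMonoidHom ℓ : Q →* Q).range = ⊤) : H = ⊤ := by
  by_contra hne
  have hsur : Function.Surjective (fun q : Q ⧸ H => q ^ ℓ) := by
    intro q
    obtain ⟨q, rfl⟩ := QuotientGroup.mk_surjective q
    have hq : q ∈ H ⊔ (powMonoidHom ℓ : Q →* Q).range := h ▸ Subgroup.mem_top q
    obtain ⟨a, ha, _, ⟨b, rfl⟩, rfl⟩ := Subgroup.mem_sup.1 hq
    refine ⟨(b : Q ⧸ H), ?_⟩
    change ((b : Q ⧸ H)) ^ ℓ = ((a * b ^ ℓ : Q) : Q ⧸ H)
    rw [QuotientGroup.mk_mul, QuotientGroup.mk_pow, (QuotientGroup.eq_one_iff a).2 ha, one_mul]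
  have hinj := Finite.injective_iff_surjective.2 hsur
  have hpQ : IsPGroup ℓ (Q ⧸ H) := hp.to_quotient H
  obtain ⟨n, hn⟩ := IsPGroup.iff_card.1 hpQ
  have hn0 : n ≠ 0 := by
    rintro rfl
    apply hne
    rw [← Subgroup.index_eq_one]
    exact hn.trans (pow_zero _)
  have hdvd : ℓ ∣ Nat.card (Q ⧸ H) := hn ▸ dvd_pow_self ℓ hn0
  obtain ⟨z, hz⟩ := exists_prime_orderOf_dvd_card' ℓ hdvd
  have h1 : z ^ ℓ = 1 := hz ▸ pow_orderOf_eq_one z
  have h2 : z = 1 := hinj (by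
    change z ^ ℓ = 1 ^ ℓ
    rw [h1, one_pow])
  rw [h2, orderOf_one] at hz
  exact hℓ.out.one_lt.ne hz

/-- at most `ℓ ^ 2` elements of order dividing `ℓ`: two generators -/
theorem gen_of {Q : Type} [CommGroup Q] [Finite Q] {ℓ : ℕ} [hℓ : Fact ℓ.Prime]
    (hp : IsPGroup ℓ Q) (h : {x : Q | x ^ ℓ = 1}.ncard ≤ ℓ ^ 2) :
    ∃ x y : Q, Subgroup.closure ({x, y} : Set Q) = ⊤ := by
  rw [ncard_pow] at h
  set A := (powMonoidHom ℓ : Q →* Q).range with hA
  -- a strict inclusion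
  have hstep : ∀ B C : Subgroup Q, B < C → ℓ * C.index ≤ B.index := by
    intro B C hBC
    rw [← Subgroup.relIndex_mul_index hBC.le]
    refine Nat.mul_le_mul_right _ ?_
    have h1 : B.relIndex C ≠ 1 := fun h2 => hBC.not_ge (Subgroup.relIndex_eq_one.1 h2)
    obtain ⟨n, hn⟩ := IsPGroup.iff_card.1 hp
    have h2 : B.relIndex C ∣ ℓ ^ n := by
      rw [← hn]
      exact (Subgroup.relIndex_dvd_card B C).trans (Subgroup.card_subgroup_dvd_card C)
    obtain ⟨k, -, hk⟩ := (Nat.dvd_prime_pow hℓ.out).1 h2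
    rw [hk] at h1 ⊢
    have hk0 : k ≠ 0 := by
      rintro rfl
      exact h1 (pow_zero _)
    calc ℓ = ℓ ^ 1 := (pow_one ℓ).symm
      _ ≤ ℓ ^ k := Nat.pow_le_pow_right hℓ.out.pos (Nat.one_le_iff_ne_zero.2 hk0)
  have hx : ∃ x : Q, A ⊔ Subgroup.closure {x} = ⊤ ∨ A < A ⊔ Subgroup.closure {x} := by
    by_cases hT : A = ⊤
    · exact ⟨1, Or.inl (by rw [hT, top_sup_eq])⟩
    · obtain ⟨x, -, hx⟩ := SetLike.exists_of_lt (lt_top_iff_ne_top.2 hT)
      refine ⟨x, Or.inr (lt_of_le_of_ne le_sup_left fun h1 => hx ?_)⟩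
      rw [h1]
      exact Subgroup.mem_sup_right (Subgroup.subset_closure (Set.mem_singleton x))
  obtain ⟨x, hx⟩ := hx
  set B := A ⊔ Subgroup.closure {x} with hB
  have hy : ∃ y : Q, B ⊔ Subgroup.closure {y} = ⊤ := by
    by_cases hT : B = ⊤
    · exact ⟨1, by rw [hT, top_sup_eq]⟩
    · obtain ⟨y, -, hy⟩ := SetLike.exists_of_lt (lt_top_iff_ne_top.2 hT)
      have hlt : B < B ⊔ Subgroup.closure {y} := by
        refine lt_of_le_of_ne le_sup_left fun h1 => hy ?_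
        rw [h1]
        exact Subgroup.mem_sup_right (Subgroup.subset_closure (Set.mem_singleton y))
      refine ⟨y, ?_⟩
      have h1 := hstep _ _ (hx.resolve_left hT)
      have h2 := hstep _ _ hlt
      have h3 : ℓ * (ℓ * (B ⊔ Subgroup.closure {y}).index) ≤ ℓ ^ 2 :=
        ((Nat.mul_le_mul_left ℓ h2).trans h1).trans h
      rw [← Subgroup.index_eq_one]
      have h4 : 0 < (B ⊔ Subgroup.closure {y}).index :=
        Nat.pos_of_ne_zero Subgroup.index_ne_zero_of_finite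
      have h5 : ℓ ^ 2 * (B ⊔ Subgroup.closure {y}).index ≤ ℓ ^ 2 * 1 := by
        rw [mul_one, sq, mul_assoc, ← sq]
        exact h3
      have h6 := Nat.le_of_mul_le_mul_left h5 (pow_pos hℓ.out.pos 2)
      omega
  obtain ⟨y, hy⟩ := hy
  refine ⟨x, y, frat hp _ ?_⟩
  have h7 : Subgroup.closure ({x, y} : Set Q) = Subgroup.closure {x} ⊔ Subgroup.closure {y} := by
    rw [← Subgroup.closure_union, Set.singleton_union]
  rw [h7, ← hA, sup_comm, ← sup_assoc]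
  exact hy

end Pool.Agent.PP.TW
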