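import Pool.Agent.ATW.Rank2
import Pool.Agent.Helper66_DF.FinE
import Pool.Agent.ASE.StmtsX

/-!
# Squad ATW: blocks with abelian defect groups of rank at most two, relative to a normal subgroup

`rk2`: the alternating sum of every central idempotent all of whose defect groups are abelian and
generated by two elements; `fin2`: the final theorem.  The hypotheses are the theorem for exponent
`ℓ ^ a`, `a ≥ 2` (`Tt`), and the second order theorem (`SE.S2fStmt`).
-/

open scoped BigOperators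

noncomputable section

namespace Pool.Agent.PP.TW

open Pool.Agent.Helper51_AWC Pool.Agent.Helper79_WRA Pool.Agent.PP Pool.Agent.PP.KF
open Pool.Agent.PP.K9 Pool.Agent.PP.K9.H97 Pool.Agent.PP.H75 Pool.Agent.PP.T3 Pool.Agent.PP.T2

attribute [local instance] Ideal.Quotient.field

/-- a block of the class `R2` -/
theorem rk2_blk (hT : ∀ (ℓ : ℕ) [Fact ℓ.Prime], Tt ℓ) (hS : SE.S2fStmt) {ℓ : ℕ}
    [hℓ : Fact ℓ.Prime] (M : Ideal (integralClosure ℤ ℂ)) [M.IsMaximal]
    (hM : (ℓ : integralClosure ℤ ℂ) ∈ M) {G : Type} [Group G] [Finite G] (f : G → FF M)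
    (hf : IsBlk f) (hpf : Pos ℓ f ⊤) (V : Subgroup G) (hV : Tp ℓ f V) (hR : R2 ℓ V) :
    YY ℓ ⊤ f = 0 := by
  have hF : GoodF ℓ (FF M) := H50.fld ℓ hℓ.out M hM
  have hfm : ∀ Q : Subgroup G, IsPGroup ℓ Q → Gd f Q → ∃ g, Q ≤ conjS g V :=
    (H69.fmg ℓ M hM G f hf V hV).1
  by_cases hO : opCore ℓ G = ⊥
  swap
  · exact H96.yzr ℓ (FF M) hℓ.out G ⊤ inferInstance (opCore_top_ne rfl hO) f
  by_cases hcyc : IsCyclic V
  · refine CD2.Asm.d2a_ ℓ (FF M) hF G ⊤ inferInstance f hf.1 hpf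
      ⟨f, hf.1, fun x hx => absurd (Subgroup.mem_top x) hx, hf.1.2, fun Q hQ hQp hbr => ?_⟩
    have h1 : Gd f Q := by
      by_contra hcon
      apply hbr
      funext t
      by_cases ht : t ∈ Subgroup.centralizer (Q : Set G)
      · rw [H66.br_of_mem ht]
        by_contra h2
        exact hcon ⟨t, ht, h2⟩
      · rw [H66.br_of_not_mem ht]
        rfl
    obtain ⟨g, hg⟩ := hfm Q hQp h1
    have e1 : V ≃* conjS g V := V.equivMapOfInjective _ (MulAut.conj g).injective
    have : IsCyclic (conjS g V) := isCyclic_of_surjective e1.toMonoidHom e1.surjective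
    exact isCyclic_of_injective (Subgroup.inclusion hg) (Subgroup.inclusion_injective hg)
  · obtain ⟨-, hVp, hVab, hVn⟩ := hR
    have hab : ∀ a ∈ V, ∀ b ∈ V, a * b = b * a := fun a ha b hb =>
      congrArg Subtype.val (hVab ⟨a, ha⟩ ⟨b, hb⟩)
    letI : CommGroup V := { (inferInstance : Group V) with mul_comm := hVab }
    obtain ⟨γ, hγ⟩ := T6.H24.exists_gam hF hf hV hab
    obtain ⟨n, hn⟩ := IsPGroup.iff_card.1 hVp
    have hexp : ∃ a : ℕ, Monoid.exponent V = ℓ ^ a := by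
      have h1 : Monoid.exponent V ∣ ℓ ^ n := hn ▸ Group.exponent_dvd_nat_card
      obtain ⟨a, -, ha⟩ := (Nat.dvd_prime_pow hℓ.out).1 h1
      exact ⟨a, ha⟩
    obtain ⟨a, ha⟩ := hexp
    by_cases ha2 : 2 ≤ a
    · refine hT ℓ M hM a ha2 G f V γ hγ ha ?_
      obtain ⟨x, y, hxy⟩ := gen_of hVp hVn
      refine ⟨x, y, ?_⟩
      have h1 := congrArg (Subgroup.map V.subtype) hxy
      rw [MonoidHom.map_closure, ← MonoidHom.range_eq_map, Subgroup.range_subtype,
        Set.image_pair] at h1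
      exact h1.symm
    · have hel : ∀ v ∈ V, v ^ ℓ = 1 := by
        intro v hv
        have h1 : (⟨v, hv⟩ : V) ^ Monoid.exponent V = 1 := Monoid.pow_exponent_eq_one _
        have h2 : (⟨v, hv⟩ : V) ^ ℓ = 1 := by
          have ha1 : a = 0 ∨ a = 1 := by omega
          rcases ha1 with h | h
          · rw [ha, h, pow_zero, pow_one] at h1
            rw [h1, one_pow]
          · rw [ha, h, pow_one] at h1
            exact h1
        exact congrArg Subtype.val h2
      have hle : Nat.card V ≤ ℓ ^ 2 := by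
        rw [← Set.ncard_univ]
        refine le_trans (Set.ncard_le_ncard ?_ (Set.toFinite _)) hVn
        intro x _
        exact Subtype.ext (hel x x.2)
      have hcard : Nat.card V = ℓ ^ 2 := by
        rw [hn] at hle ⊢
        have hn2 : n ≤ 2 := (Nat.pow_le_pow_iff_right hℓ.out.one_lt).1 hle
        have hn0 : n ≠ 0 := by
          rintro rfl
          apply hcyc
          rw [pow_zero] at hn
          have := (Nat.card_eq_one_iff_unique.1 hn).1
          exact isCyclic_of_subsingleton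
        have hn1 : n ≠ 1 := by
          rintro rfl
          apply hcyc
          rw [pow_one] at hn
          exact isCyclic_of_prime_card hn
        rw [show n = 2 by omega]
      by_cases h5 : 5 ≤ ℓ
      · exact hS ℓ M hM h5 G f V γ hγ hel hcard
      · have hl : ℓ = 2 ∨ ℓ = 3 := by
          have h2 := hℓ.out.two_le
          have h4 : ℓ ≠ 4 := by
            intro h
            have := hℓ.out
            rw [h] at this
            exact absurd this (by decide)
          omega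
        have hdv : ∀ Q : Subgroup G, IsPGroup ℓ Q → Gd f Q → Nat.card Q ∣ ℓ ^ 2 := by
          intro Q hQ hg
          have h1 := hV.mx Q hQ hg
          obtain ⟨k, hk⟩ := IsPGroup.iff_card.1 hQ
          rw [hk, hcard] at h1
          rw [hk]
          exact pow_dvd_pow ℓ ((Nat.pow_le_pow_iff_right hℓ.out.one_lt).1 h1)
        rcases hl with rfl | rfl
        · exact H57.gq4' KF.gq4_ H69.fmg CD2.Asm.d2a_ H9.addStmt M (by exact_mod_cast hM) G f hf.1
            hpf fun Q _ hQp h1 => by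
              change Nat.card Q ∣ 4
              exact hdv Q hQp h1
        · exact gq9_ M hM G hO f hf.1 hpf fun Q _ hQp h1 => by
            change Nat.card Q ∣ 9
            exact hdv Q hQp h1

/-- the theorem for central idempotents -/
theorem rk2 (hT : ∀ (ℓ : ℕ) [Fact ℓ.Prime], Tt ℓ) (hS : SE.S2fStmt) {ℓ : ℕ}
    [hℓ : Fact ℓ.Prime] (M : Ideal (integralClosure ℤ ℂ)) [M.IsMaximal]
    (hM : (ℓ : integralClosure ℤ ℂ) ∈ M) {G : Type} [Group G] [Finite G] (e : G → FF M)
    (he : IsIdem e) (hp : Pos ℓ e ⊤) (hdf : DF.DfE ℓ (R2 ℓ) e ⊤) : YY ℓ ⊤ e = 0 := by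
  have hF : GoodF ℓ (FF M) := H50.fld ℓ hℓ.out M hM
  refine H9.addStmt ℓ (FF M) hF G ⊤ inferInstance e he fun f hf hef => ?_
  have hfe : mulF f e = f := by rw [H46.mulF_comm hf.1.1, hef]
  have hpf : Pos ℓ f ⊤ := H46.pos_mono hf.1 hfe hp
  have hdf' : DF.DfE ℓ (R2 ℓ) f ⊤ := DF.DfE.le hF he.1 hf.1.1 hef hdf
  obtain ⟨V, hV⟩ := H57.exists_tp (ℓ := ℓ) hf.2.1
  exact rk2_blk hT hS M hM f hf hpf V hV (hdf' V le_top hV.pg hV.gd)

/-- the final theorem: `G` finite with `O_ℓ(G) ≤ Z(G)`, `N` a normal subgroup, `χ` over `ψ`, the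
defect groups of the block of `ψ` are larger than `O_ℓ(N)`, and modulo `O_ℓ(N)` they are abelian and
generated by two elements -/
theorem fin2 (hT : ∀ (ℓ : ℕ) [Fact ℓ.Prime], Tt ℓ) (hS : SE.S2fStmt) :
    ∀ (ℓ : ℕ), ℓ.Prime → ∀ (M : Ideal (integralClosure ℤ ℂ)) [M.IsMaximal],
      (ℓ : integralClosure ℤ ℂ) ∈ M → ∀ (G : Type) [Group G] [Finite G],
      opCore ℓ G ≤ Subgroup.center G → ∀ N : Subgroup G, N.Normal →
      ∀ χ ∈ Irr G, ∀ ψ ∈ Irr N, (∑ᶠ n : N, χ n * starRingEnd ℂ (ψ n)) ≠ 0 →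
        LargeDefect ℓ M ψ →
        (∃ (x : N) (P : Subgroup N), ¬ Cong M (omega (MonoidHom.id N) ψ x) 0 ∧
          P ≤ Subgroup.centralizer ({x} : Set N) ∧ IsPGroup ℓ P ∧
          ¬ ℓ ∣ P.relIndex (Subgroup.centralizer ({x} : Set N)) ∧
          (∀ u ∈ P, ∀ v ∈ P, u * v * u⁻¹ * v⁻¹ ∈ opCore ℓ N) ∧
          ∃ a b : N, P ≤ Subgroup.closure ({a, b} : Set N) ⊔ opCore ℓ N ∧ a ∈ P ∧ b ∈ P) →
        altSum ℓ M χ = 0 := by
  intro ℓ hℓ M _ hM G _ _ hc N hN χ hχ ψ hψ hχψ hL hS'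
  obtain ⟨x, P, hx, hPC, hPp, hPi, hab, a, b, hgen, haP, hbP⟩ := hS'
  have hfact : Fact ℓ.Prime := ⟨hℓ⟩
  have hn := H75.opCore_normal (A := G) ℓ
  have hnN : (opCore ℓ N).Normal := H75.opCore_normal (A := N) ℓ
  refine DF.finI (DF.relQE_ DF.dfq_ DF.H43.covE DF.dbl_) KF.fst_ hℓ hM (r2_subCl ℓ) hc hN ?_ hχ hψ
    hχψ hL ⟨x, P, fun h1 => hx ?_, hPC, hPp, hPi, _, inferInstance,
      QuotientGroup.mk' ((opCore ℓ N).subgroupOf P), ?_, ?_⟩
  · intro S _ _ _ _ _ D _ _ _ _ _ _ e he _ hpos hdf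
    exact rk2 hT hS M hM e he hpos hdf
  · have hint : IsIntegral ℤ (omega (MonoidHom.id N) ψ x) :=
      Pool.Agent.Helper51_AWC.omega_integral _ hψ x
    rw [← Pool.Agent.Helper79_WRA.red_eq_iff hint isIntegral_zero, h1,
      Pool.Agent.Helper79_WRA.red_zero]
  · set A := (opCore ℓ N).subgroupOf P with hA
    have hcomm : ∀ q q' : P ⧸ A, q * q' = q' * q := by
      intro q q'
      obtain ⟨u, rfl⟩ := QuotientGroup.mk_surjective q
      obtain ⟨v, rfl⟩ := QuotientGroup.mk_surjective q'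
      rw [← QuotientGroup.mk_mul, ← QuotientGroup.mk_mul, QuotientGroup.eq, hA,
        Subgroup.mem_subgroupOf]
      have h1 := hab (v : N)⁻¹ (P.inv_mem v.2) (u : N)⁻¹ (P.inv_mem u.2)
      have h2 : (((u * v)⁻¹ * (v * u) : P) : N) =
          (v : N)⁻¹ * (u : N)⁻¹ * (v : N)⁻¹⁻¹ * (u : N)⁻¹⁻¹ := by
        push_cast
        group
      rw [h2]
      exact h1
    refine ⟨inferInstance, hPp.to_quotient A, hcomm, ?_⟩
    letI : CommGroup (P ⧸ A) := { (inferInstance : Group (P ⧸ A)) with mul_comm := hcomm }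
    refine ncard_le hℓ.pos (x := QuotientGroup.mk' A ⟨a, haP⟩) (y := QuotientGroup.mk' A ⟨b, hbP⟩)
      fun q => ?_
    obtain ⟨u, rfl⟩ := QuotientGroup.mk'_surjective A q
    have h1 : (u : N) ∈ Subgroup.closure ({a, b} : Set N) ⊔ opCore ℓ N := hgen u.2
    rw [Subgroup.mem_sup_of_normal_right] at h1
    obtain ⟨c, hc1, d, hd1, hcd⟩ := h1
    have hcP : Subgroup.closure ({a, b} : Set N) ≤ P := by
      rw [Subgroup.closure_le]
      rintro z hz
      rcases hz with rfl | hz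
      · exact haP
      · rw [Set.mem_singleton_iff.1 hz]
        exact hbP
    have hdP : d ∈ P := by
      have : d = c⁻¹ * u := by rw [← hcd]; group
      rw [this]
      exact P.mul_mem (P.inv_mem (hcP hc1)) u.2
    have h3 : u = (⟨c, hcP hc1⟩ : P) * ⟨d, hdP⟩ := Subtype.ext hcd.symm
    have h4 : QuotientGroup.mk' A (⟨d, hdP⟩ : P) = 1 := by
      rw [QuotientGroup.mk'_apply, QuotientGroup.eq_one_iff]
      exact Subgroup.mem_subgroupOf.2 hd1
    rw [h3, map_mul, h4, mul_one]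
    have h5 : (⟨c, hcP hc1⟩ : P) ∈ Subgroup.closure ({⟨a, haP⟩, ⟨b, hbP⟩} : Set P) := by
      have h6 : (Subgroup.closure ({⟨a, haP⟩, ⟨b, hbP⟩} : Set P)).map P.subtype =
          Subgroup.closure ({a, b} : Set N) := by
        rw [MonoidHom.map_closure, Set.image_pair]
        rfl
      rw [← h6] at hc1
      obtain ⟨c', hc', rfl⟩ := hc1
      exact hc'
    have h7 := Subgroup.mem_map_of_mem (QuotientGroup.mk' A) h5
    rw [MonoidHom.map_closure, Set.image_pair] at h7
    exact h7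
  · intro u
    rw [QuotientGroup.mk'_apply, QuotientGroup.eq_one_iff]
    exact Subgroup.mem_subgroupOf

end Pool.Agent.PP.TW
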