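import Pool.Agent.ATW.Defs

/-!
# Squad ATW: the prime 2, defect groups with two generators: statements

See `Defs.lean` for the sketch.  Complete proofs in the docstrings; all rows are independent (a row
takes the rows which it uses as hypotheses, also rows of the squads AT2, AT3, AT5, AT8, ATZ, AT10, which
are all proved).  `vv M b d u χ = χ(u b_u)/d_u`, `Rv M V f`: `f` is on `V` a combination of the linear
characters with coefficients in the local ring `RM M`, `rr M` the residue map, `Rf M N e` the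
characters in `e` which are fixed by the power map, `mm M ℓ (Cu u) u b χ ψ` the inner product of the
functions `s ↦ χ(u s b)`, `s ↦ ψ(u s b)` on the regular elements of `C(u)`, `Az ... z = |V| |C_E(z)| mm`.
-/

open scoped BigOperators

noncomputable section

namespace Pool.Agent.PP.TW

open Pool.Agent.Helper51_AWC Pool.Agent.Helper79_WRA Pool.Agent.PP Pool.Agent.PP.KF
open Pool.Agent.PP.K9 Pool.Agent.PP.K9.H97 Pool.Agent.PP.H75 Pool.Agent.PP.T3 Pool.Agent.PP.T2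
open Pool.Agent.PP.T5 Pool.Agent.PP.TB
open Pool.Agent.PP.T8 (rs pw fv rd Ip Rv vv Dat Fr)

attribute [local instance] Ideal.Quotient.field

/-! ## 1. The power map -/

/-- P3M: the powers of `3` modulo `2 ^ A`.

Proof.  `A ≤ 3`: check (`A = 3`: `3 ^ 0 = 1`, `3 ^ 1 = 3`).  `A ≥ 3`: induction on `A`.  Let
`3 ^ k = j` modulo `2 ^ A`; if not modulo `2 ^ (A+1)` then `3 ^ k = j + 2 ^ A` modulo `2 ^ (A+1)`, and
`3 ^ (k + 2 ^ (A-2)) = 3 ^ k (1 + 2 ^ A) = j` modulo `2 ^ (A+1)`, because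
`3 ^ (2 ^ (A-2)) = 1 + 2 ^ A` modulo `2 ^ (A+1)` (`A = 3`: `9`; squaring: `(1 + 2 ^ A c)² =
1 + 2 ^ (A+1) c + ...`, `c` odd). -/
def P3mStmt : Prop := ∀ A j : ℕ, j ≡ 1 [MOD 8] ∨ j ≡ 3 [MOD 8] → ∃ k : ℕ, 3 ^ k ≡ j [MOD 2 ^ A]

/-- PR3: existence of `N`.

Proof.  Compare `T5.Pr5Stmt`, `T2.Pr2Stmt`.  `|G| = 2 ^ A m`, `m` odd.  `N = 3` modulo `2 ^ (A+1)` and
`N = 1` modulo `m` (Chinese remainder theorem), so `N` is prime to `|G|`.  The order of a `2`-element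
divides `2 ^ A`, the order of a regular element divides `m`.  `gen`: P3M, `N ^ k = 3 ^ k = j` modulo
`2 ^ A`. -/
def Pr3Stmt : Prop := ∀ (G : Type) [Group G] [Finite G], ∃ N : ℕ, G3 G N

/-- FX3: a bound by the number of the fixed characters.

Proof.  As `T2.FxsStmt` (row FXS of squad AT2): by RTC (`T3.H23.rtc'`, for `N` prime to `|G|`, trivial
on the regular elements) `χ ∘ (· ^ N)` is an irreducible character in `e` for `χ` in `e`, so the number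
of the fixed characters is `|G|⁻¹ ∑_g ∑_{χ ∈ e} χ(g ^ N) conj χ(g)`.  Write `g = y s = s y`, `y` its
`2`-part.  The elements with `y ^ 2 ≠ 1` contribute `0` (`T2.FxyStmt` for each such `y`,
`(y s) ^ N = y ^ N s`).  If `y ^ 2 = 1` then `g ^ N = y ^ 3 s = g` and the contribution is
`∑ |χ(g)|² ≥ 0`.  The elements with `y = 1` give `ln e` (`T3.LrkStmt`). -/
def Fx3Stmt : Prop := ∀ (M : Ideal (integralClosure ℤ ℂ)) [M.IsMaximal],
  ((2 : ℕ) : integralClosure ℤ ℂ) ∈ M → ∀ (G : Type) [Group G] [Finite G] (N : ℕ), G3 G N →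
  ∀ e : G → FF M, IsIdem e →
  (∀ y : G, El 2 y → y ^ 2 ≠ 1 → ∀ b : G → FF M, Bx (Cu y) b →
    mulF (fun t : Cu y => e t) (fun t : Cu y => b t) = (fun t : Cu y => b t) →
    ∀ g : G, g * y * g⁻¹ = y ^ N → cj g b ≠ b) →
  ln e ≤ (Rf M N e).ncard

/-- ST3: no pair `(y, b)`, `y ^ 2 ≠ 1`, is conjugate to `(y ^ 3, b)`.

Proof.  As `T2.StgStmt` (row STG of squad AT2): one finds a `V₁` (conjugate to `V`, `y ∈ V₁`) and
`t ∈ T₁ = Tg V₁ γ₁` with `t y t⁻¹ = y ^ N = y ^ 3`.  Let `m = |T₁ : C(V₁)|`, an odd number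
(`K9.InxStmt`); `t ^ m ∈ C(V₁)`, so `y = y ^ (3 ^ m)`, `y ^ (3 ^ m - 1) = 1`.  As `m` is odd,
`3 ^ m - 1 = 2` modulo `8`, so it is twice an odd number, and `y ^ 2 = 1`, a contradiction. -/
def St3Stmt : Prop := ∀ (M : Ideal (integralClosure ℤ ℂ)) [M.IsMaximal],
  ((2 : ℕ) : integralClosure ℤ ℂ) ∈ M → ∀ (G : Type) [Group G] [Finite G] (N : ℕ), G3 G N →
  ∀ (e : G → FF M) (V : Subgroup G) (γ : G → FF M), Ld 2 e V γ → ∀ y : G, El 2 y → y ^ 2 ≠ 1 →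
  ∀ b : G → FF M, Bx (Cu y) b →
  mulF (fun t : Cu y => e t) (fun t : Cu y => b t) = (fun t : Cu y => b t) →
  ∀ g : G, g * y * g⁻¹ = y ^ N → cj g b ≠ b

/-! ## 2. The contributions of the regular elements -/

/-- LN1: blocks of inertial index one have one modular character.

Proof.  `T3.NilStmt`: `IrrE M b` has `|V|` elements, all of the same degree.  `T8.Rg1Stmt`: they all
agree with one of them, `κ₀`, on the regular elements.  Let `t = |H|⁻¹ ∑_{s regular} |κ₀(s)|²`, not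
`0` (`s = 1`).  `T3.LrkStmt`: `ln b = |V| t`.  Let `P κ κ' = |H|⁻¹ ∑_{s regular} κ(s) conj κ'(s) = t`
for `κ, κ' ∈ IrrE M b`.  By `K9.RotStmt` the product of `κ₀` with the indicator function of the
regular elements is `∑_{κ' ∈ b} P κ₀ κ' κ'`, so (take the inner product with this function)
`t = ∑_{κ'} |P κ₀ κ'|² = |V| t²`, and `|V| t = 1`. -/
def Ln1Stmt : Prop := ∀ (ℓ : ℕ) [Fact ℓ.Prime] (M : Ideal (integralClosure ℤ ℂ)) [M.IsMaximal],
  (ℓ : integralClosure ℤ ℂ) ∈ M → ∀ (H : Type) [Group H] [Finite H] (b : H → FF M)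
  (V : Subgroup H) (γ : H → FF M), Ld ℓ b V γ → ix V γ = 1 → ln b = 1

/-- DPV: conjugation with the inertial group, and powers (for all primes; compare `T8.DpwStmt`,
`Helper*_AT8/DPW.lean`, which has `ℓ ≠ 2` because of the signs `ε`).

Proof.  Let `t ∈ T`, `u' = t u t⁻¹`.  `u'` is regular (`T ∩ C(u') = t (T ∩ C(u)) t⁻¹`).  `cj t (b u)` is
the local block of `u'`: a block of `C(u') = t C(u) t⁻¹` under `e`, and
`br_V(cj t (b u)) γ = cj t (br_V(b u) γ) = γ`; by uniqueness (`T3.LocStmt`) it is `b u'`.  So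
`d u' = d u` (a block has a character), `gv u' (b u') χ = gv u (b u) χ` (`χ` is a class function).
Powers: `T3.LpwStmt` and uniqueness, `C(u ^ j) = C(u)`. -/
def DpvStmt : Prop := ∀ (ℓ : ℕ) [Fact ℓ.Prime] (M : Ideal (integralClosure ℤ ℂ)) [M.IsMaximal],
  (ℓ : integralClosure ℤ ℂ) ∈ M → ∀ (G : Type) [Group G] [Finite G] (e : G → FF M)
  (V : Subgroup G) (γ : G → FF M) (b : G → G → FF M) (d : G → ℕ) (c : ℕ) (ε : G → ℤ),
  Dat M ℓ e V γ b d c ε →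
  (∀ t ∈ Tg V γ, ∀ u, Rg V γ u → Rg V γ (t * u * t⁻¹) ∧
    ∀ χ ∈ Irr G, vv M b d (t * u * t⁻¹) χ = vv M b d u χ) ∧
  ∀ u, Rg V γ u → ∀ j : ℕ, ¬ ℓ ∣ j → Rg V γ (u ^ j) ∧ Cu (u ^ j) = Cu u ∧ b (u ^ j) = b u ∧
    d (u ^ j) = d u

/-- MMV: the inner product in the section of a regular element.

Proof.  `b = b u`.  By RGL (`T3.RglStmt`, `T3.LocStmt`, `T3.LsbStmt`) the block `b | C(u)` has inertial
index one; so `IrrE` of it has `|V|` elements of degree `d = d u` (`T3.NilStmt`), they all agree with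
one of them, `κ₀` (extended by zero), on the regular elements `s` of `C = C(u)` (`T8.Rg1Stmt`), and
`ln b = 1` (LN1).  So `kr M C b s c = |V| κ₀(s) conj κ₀(c)` for regular `s, c`, and `T5.KerStmt`
(`w = u`) gives `gv M C (u s) b χ = κ₀(s) X(χ)`, `X(χ) = |V| |C|⁻¹ ∑_c conj κ₀(c) χ(u c)`.  `s = 1`:
`X(χ) = gv M C u b χ / d = vv u χ`.  So `mm = vv u χ conj (vv u ψ) |C|⁻¹ ∑_s |κ₀(s)|²`, and
`|V| |C|⁻¹ ∑_s |κ₀(s)|² = ln b = 1` (`T3.LrkStmt`). -/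
def MmvStmt : Prop := ∀ (ℓ : ℕ) [Fact ℓ.Prime] (M : Ideal (integralClosure ℤ ℂ)) [M.IsMaximal],
  (ℓ : integralClosure ℤ ℂ) ∈ M → ∀ (G : Type) [Group G] [Finite G] (e : G → FF M)
  (V : Subgroup G) (γ : G → FF M) (b : G → G → FF M) (d : G → ℕ) (c : ℕ) (ε : G → ℤ),
  Dat M ℓ e V γ b d c ε → ∀ u, Rg V γ u → ∀ χ ∈ Irr G, ∀ ψ ∈ Irr G,
    (Nat.card V : ℂ) * mm M ℓ (Cu u) u (b u) χ ψ =
      vv M b d u χ * starRingEnd ℂ (vv M b d u ψ)

/-- STA: the theorem of Broué and Puig for an abelian defect group.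

Proof.  `Zc V = V ⊓ C(V) = V`, `Uw (ℓ ^ 0) (Zc V) = V`.  `T10.ZloStmt` with `p = 0` gives
`b'` with `Zd ℓ e V V γ b'` and `Lo M ℓ e V V b'` (rewrite `Uw (ℓ ^ 0) (Zc V) = V`); `T10.StrStmt`. -/
def StaStmt : Prop := ∀ (ℓ : ℕ) [Fact ℓ.Prime] (M : Ideal (integralClosure ℤ ℂ)) [M.IsMaximal],
  (ℓ : integralClosure ℤ ℂ) ∈ M → ∀ (G : Type) [Group G] [Finite G] (e : G → FF M)
  (V : Subgroup G) (γ : G → FF M), Ld ℓ e V γ → ∃ b' : G → G → FF M, Zd ℓ e V V γ b' ∧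
    Star M ℓ e V V γ b'

/-- HCO: the function of a pair of characters.

Proof.  `b'` from STA, `f = Az M ℓ V V γ b' χ ψ`.  `Rv`: `Star`.  Let `u` be regular: `b' u` is the local
block of `u` (`Zd.lb`: `Lb`, `br_V(b' u) γ = γ`), so `b' u = b u` (`Dat.lc`, `T3.LocStmt`);
`cz V V γ u = |T ∩ C(u) : C(V) ∩ T| = 1` as `u` is regular.  So `f u = |V| mm M ℓ (Cu u) u (b u) χ ψ`, MMV.
Power map: as `TB.IvzStmt` (`Helper*_ATZ/IVZ.lean`), which uses only these properties of `N`: let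
`v ≠ 1`, so `ℓ` divides `|G|` and `N` is prime to `ℓ`; `C(v ^ N) = C(v)`, `b' (v ^ N) = b' v`,
`cz (v ^ N) = cz v` (`TB.ZcpStmt` (ii)).  By `T5.KerStmt` (for `u = v`, `w = v ^ N` and `w = v`) it is
enough that `χ(v ^ N c) = χ(v c)` for `c ∈ C(v)` regular: `v ^ N c = v ^ N c ^ N = (v c) ^ N`. -/
def HcoStmt : Prop := ∀ (ℓ : ℕ) [Fact ℓ.Prime] (M : Ideal (integralClosure ℤ ℂ)) [M.IsMaximal],
  (ℓ : integralClosure ℤ ℂ) ∈ M → ∀ (G : Type) [Group G] [Finite G] (e : G → FF M)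
  (V : Subgroup G) (γ : G → FF M) (b : G → G → FF M) (d : G → ℕ) (c : ℕ) (ε : G → ℤ),
  Dat M ℓ e V γ b d c ε → ∀ χ ∈ IrrE M e, ∀ ψ ∈ IrrE M e, ∃ f : G → ℂ, Rv M V f ∧
    (∀ u, Rg V γ u → f u = vv M b d u χ * starRingEnd ℂ (vv M b d u ψ)) ∧
    ∀ N : ℕ, N.Coprime (Nat.card G) → (∀ g : G, Reg ℓ g → g ^ N = g) →
      (∀ g, χ (g ^ N) = χ g) → (∀ g, ψ (g ^ N) = ψ g) → ∀ v ∈ V, f (v ^ N) = f v

/-! ## 3. Group theory -/

/-- PYP: automorphisms of odd order of a `2`-group with two generators.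

Proof.  Compare `T8.RgbStmt`, `T12.CpyStmt`.  Let `E ≠ 1`.  The cosets of `V ^ 2 = {v ^ 2}` are at
most `4` (two generators).  The `s ∈ E` which fix all cosets (`∀ v, ∃ w, s v = v w ^ 2`) form a
subgroup, which is trivial by `T8.CprStmt`, last claim.  So there are `4` cosets (otherwise `E` fixes
all cosets) and `E` acts faithfully on the `3` cosets different from `V ^ 2`; its order is odd, so
it is `3`, and no `s ∈ E`, `s ≠ 1`, fixes a coset different from `V ^ 2` (otherwise `s ^ 2` fixes all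
cosets).  Freeness: let `s ∈ E`, `s ≠ 1`, `s v₀ = v₀`; `s` generates `E`, so `v₀` is fixed by `E`.  Let
`π` be the homomorphism of CPR for `S = E`: its image `C` is the set of the fixed points of `E`, and
`π(c) = c` for `c ∈ C`.  The coset of `c ∈ C` is fixed, so `c = x ^ 2`, `c = π(c) = π(x) ^ 2`: so the
map `c ↦ c ^ 2` of `C` to itself is surjective, so it is injective, and `C = 1` (otherwise `C`
contains an involution).  `y`: `V` has an element `y` of order `2 ^ a` (exponent, abelian).  Let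
`s ∈ E`, `s ≠ 1`, `z = y ^ (2 ^ (a-1))`, `w = s z = x ^ 2`, `x = (s y) ^ (2 ^ (a-2))`.  `w ^ 2 = 1`,
`w ≠ 1`.  If `w` is a power of `y` then `w = z` (the only involution in `⟨y⟩`), `s z = z`, against the
freeness. -/
def PypStmt : Prop := ∀ (V : Type) [CommGroup V] [Finite V] (a : ℕ), 2 ≤ a →
  Monoid.exponent V = 2 ^ a → (∃ x y : V, (⊤ : Subgroup V) = Subgroup.closure {x, y}) →
  ∀ E : Subgroup (MulAut V), ¬ 2 ∣ Nat.card E → E = ⊥ ∨
  (Nat.card E = 3 ∧ (∀ s ∈ E, ∀ v : V, s v = v → v = 1 ∨ s = 1) ∧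
    ∃ y w x : V, orderOf y = 2 ^ a ∧ w = x ^ 2 ∧ w ^ 2 = 1 ∧ ∀ k : ℕ, y ^ k ≠ w)

/-- GTP: the two cases.

Proof.  As `T8.RtrStmt` (`Helper10_AT8/RTR.lean`): `V` is a commutative group, `E` the image of
`T = Tg V γ` in its automorphism group, with kernel `C(V)`, `|E| = ix V γ`; PYP.  `|V| ≤ 4 ^ a`: every
element is `x ^ i y ^ j` with `i, j < 2 ^ a`. -/
def GtpStmt : Prop := ∀ (F : Type) [Field F], GoodF 2 F → ∀ (G : Type) [Group G] [Finite G]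
  (e : G → F) (V : Subgroup G) (γ : G → F), Ld 2 e V γ → ¬ 2 ∣ ix V γ → ∀ a : ℕ, 2 ≤ a →
  Monoid.exponent V = 2 ^ a → (∃ x y : G, V = Subgroup.closure {x, y}) →
  ix V γ = 1 ∨ (ix V γ = 3 ∧ Fr V γ ∧ Nat.card V ≤ 4 ^ a ∧ ∃ y w : G, y ∈ V ∧
    orderOf y = 2 ^ a ∧ (∃ x ∈ V, w = x ^ 2) ∧ w ^ 2 = 1 ∧ ∀ k : ℕ, y ^ k ≠ w)

/-- RGW: the elements `y ^ j` and `y ^ j w`.

Proof.  (i) By `Fr` all elements `≠ 1` of `V` are regular, and `y ^ j w ^ i ≠ 1` for `j` odd (`w ^ 2 = 1`,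
`(y ^ j w ^ i) ^ 2 = y ^ (2 j) ≠ 1` as `a ≥ 2`).  (ii) Let `z = y ^ (2 ^ (a-1)) ≠ 1`, `z ^ 2 = 1`.
`(y ^ j w ^ i) ^ (2 ^ (a-1)) = z ^ j = z` (`a ≥ 2`, `w ^ 2 = 1`), and the same for `j'`, `i'`.  So
`t z t⁻¹ = z`, `t ∈ C(V)` by `Fr`.  (iii) `y ^ j w ^ i = y ^ j' w ^ i'`: if `i ≠ i'` modulo `2` then
`w` is a power of `y` (`y` has finite order), a contradiction; so `w ^ i = w ^ i'` and
`y ^ j = y ^ j'`.  (iv) `w ^ j = w`. -/
def RgwStmt : Prop := ∀ (M : Ideal (integralClosure ℤ ℂ)) [M.IsMaximal],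
  ((2 : ℕ) : integralClosure ℤ ℂ) ∈ M → ∀ (G : Type) [Group G] [Finite G] (a : ℕ) (e : G → FF M)
  (V : Subgroup G) (γ : G → FF M) (b : G → G → FF M) (d : G → ℕ) (c : ℕ) (ε : G → ℤ) (y w : G),
  Sw M a e V γ b d c ε y w →
  (∀ j i : ℕ, ¬ 2 ∣ j → Rg V γ (y ^ j * w ^ i)) ∧
  (∀ j j' i i' : ℕ, ¬ 2 ∣ j → ¬ 2 ∣ j' → ∀ t ∈ Tg V γ,
    t * (y ^ j * w ^ i) * t⁻¹ = y ^ j' * w ^ i' → y ^ j * w ^ i = y ^ j' * w ^ i') ∧
  (∀ j j' i i' : ℕ, y ^ j * w ^ i = y ^ j' * w ^ i' → j ≡ j' [MOD 2 ^ a] ∧ i ≡ i' [MOD 2]) ∧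
  ∀ j : ℕ, ¬ 2 ∣ j → (y * w) ^ j = y ^ j * w

/-! ## 4. Heights, values, averages -/

/-- HT2: all heights are zero.

Proof.  Let `b'` be as in `TB.ZabStmt` (or STA), `Zd ℓ e V V γ b'`.  `TB.PjzStmt` for `W = Z = V`:
`∑_{v ∈ V} cz(v) mm(v) χ χ` is a real number `≤ iz = ix V γ ≤ 3`.  The term for `v = 1` is positive
(`TB.PozStmt`, `TB.ZcpStmt`).  For `v ≠ 1`: `v` is regular (`Fr`), `cz(v) = 1`, `b' v = b v` (see HCO), and
`|V| mm(v) χ χ = |vv v χ|²` (MMV).  So (1) `∑_{v ≠ 1} |vv v χ|² < 3 |V|`.  `vv u χ` is an algebraic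
integer (`T3.InrStmt`), so it is in `RM M`.  Suppose `rr (vv u χ) = 0` for one regular `u`.  Let
`ρ = |G| c/(|C(V)| χ(1))`, a rational number `≠ 0`.  `T8.DcgStmt`: for all regular `u'` the number
`vv u' χ ρ` is in `RM M` with residue `ε ix ≠ 0` (`ix` is odd, `K9.InxStmt`), so it is a unit of `RM M`.
So `ρ⁻¹ = vv u χ/(vv u χ ρ)` is in `RM M` with residue `0`; a rational number with this property is
`2` times an element of `RM M` (write it as `n/m`, `m, n` coprime: `m` is odd, otherwise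
`1/2 ∈ RM M`; `n` is even, `KF.dvd_of_rr`).  So `vv u' χ/2 = (vv u' χ ρ) (ρ⁻¹/2)` is in `RM M` and
`vv u' χ ≠ 0` for all regular `u'`.  `T8.NrmStmt` (`ζ` of order `2 ^ a`, `s = 0`, `h = 1`), with
`T3.InrStmt` for `u'` (`q = 2 ^ a`) and DPV (`b (u' ^ j) = b u'`, `d (u' ^ j) = d u'`):
`∑_j |vv (u' ^ j) χ|² ≥ 4 · 2 ^ (a-1)`, the sum over the odd `j < 2 ^ a`.  Sum over `u' ∈ V - 1`
(`u' ↦ u' ^ j` is a bijection of `V - 1`): `∑_{v ≠ 1} |vv v χ|² ≥ 4 (|V| - 1) ≥ 3 |V|`, as `|V| ≥ 4`,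
against (1). -/
def Ht2Stmt : Prop := ∀ (M : Ideal (integralClosure ℤ ℂ)) [M.IsMaximal],
  ((2 : ℕ) : integralClosure ℤ ℂ) ∈ M → ∀ (G : Type) [Group G] [Finite G] (a : ℕ) (e : G → FF M)
  (V : Subgroup G) (γ : G → FF M) (b : G → G → FF M) (d : G → ℕ) (c : ℕ) (ε : G → ℤ) (y w : G),
  Sw M a e V γ b d c ε y w → ∀ χ ∈ IrrE M e, ∀ u, Rg V γ u →
    vv M b d u χ ∈ RM M ∧ rr M (vv M b d u χ) ≠ 0

/-- AVP: the averages over the cosets of a subgroup of `V ^ 2`.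

Proof.  Compare `T8.AvbStmt` (`Helper*_AT8/AVB.lean`).  `f(v) = ∑ a_lam lam(v)` with `a_lam ∈ RM M`
(`T8.RvaStmt`, Fourier inversion), over the homomorphisms `lam : V → ℂ`.  `f(v ^ 3) = f(v)` gives
`a_(lam ^ 3) = a_lam` (uniqueness of the coefficients; `lam ↦ lam ^ 3` is a bijection).  The average of
`lam(y w)` over `w ∈ W` is `lam(y)` if `lam` is trivial on `W` and `0` otherwise.  So the average is the
sum of the `a_lam lam(y)` over the set `X_W` of the `lam` which are trivial on `W`, in `RM M`, and its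
residue is the sum of the residues of these `a_lam` (`lam(y)` is a root of unity whose order is a power
of `2`, so its residue is `1`).  The map `lam ↦ lam ^ 3` is a permutation of `X_W` whose order is a
power of `2` (`3 ^ (2 ^ k) = 1` modulo `2 ^ k`, and `lam ^ |V| = 1`), `a` is constant on its orbits, and the orbits
which are not fixed points have an even number of elements, so they contribute `0` (the residue
field has characteristic `2`).  The fixed points are the `lam` with `lam ^ 2 = 1`; all of these are in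
`X_W`, because the elements of `W` are squares.  So the residue of the average is the sum of the
residues of the `a_lam` with `lam ^ 2 = 1`.  It does not depend on `W`; for `W = 1` the average is
`f y`. -/
def AvpStmt : Prop := ∀ (M : Ideal (integralClosure ℤ ℂ)) [M.IsMaximal],
  ((2 : ℕ) : integralClosure ℤ ℂ) ∈ M → ∀ (G : Type) [Group G] [Finite G] (V : Subgroup G),
  IsPGroup 2 V → (∀ a ∈ V, ∀ b ∈ V, a * b = b * a) → ∀ f : G → ℂ, Rv M V f →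
  (∀ v ∈ V, f (v ^ 3) = f v) → ∀ W : Subgroup G, W ≤ V → (∀ w ∈ W, ∃ x ∈ V, w = x ^ 2) →
  ∀ y ∈ V, f y ∈ RM M ∧ ((Nat.card W : ℂ)⁻¹ * ∑ᶠ w : W, f (y * w)) ∈ RM M ∧
    rr M ((Nat.card W : ℂ)⁻¹ * ∑ᶠ w : W, f (y * w)) = rr M (f y)

/-- ZI2: elements of the ring of the `2 ^ a`-th roots of unity which are fixed by `ζ ↦ ζ ^ 3`.

Proof.  `x j` depends only on `j` modulo `2 ^ a`.  `a ≤ 2`: `x j = x 1` for all odd `j` (`3 = -1` modulo
`4`), and `x 1 = (x 1 + x 3)/2` (for `a = 2`) is `m_0 - m_2` (`ζ + ζ ^ 3 = 0`, `ζ ^ 2 = -1`); `a = 1`: clear.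
`a ≥ 3`: by P3M every `j = 1` or `3` modulo `8` is a power of `3` modulo `2 ^ a`, so `x j = x 1`, and
`x j = x 5` for the `j = 5` or `7` modulo `8` (`5 · 3 ^ k`).  Average over the `2 ^ (a-2)` numbers
`j < 2 ^ a`, `j = 1` or `3` modulo `8`: `∑_j ζ ^ (i j) = (ζ ^ i + ζ ^ (3 i)) ∑_{k < 2 ^ (a-3)} ζ ^ (8 i k)`
is `0` unless `2 ^ (a-3)` divides `i`, and for `i = 2 ^ (a-3) i'` it is `2 ^ (a-3) (η ^ i' + η ^ (3 i'))`,
`η = ζ ^ (2 ^ (a-3))` of order `8`.  `η ^ i' + η ^ (3 i')` is `2, -2` for `i' = 0, 4`, `0` for `i' = 2, 6`,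
`τ` for `i' = 1, 3`, `- τ` for `i' = 5, 7`, `τ = η + η ^ 3`, `τ² = -2`, so `τ = r2` or `τ = - r2`.  So
`x 1 = P + Q τ/2` with integers `P = m_0 - m_(4 · 2 ^ (a-3))`, `Q`, and in the same way (replace `j` by
`5 j`, `η ^ 5 = - η`) `x 5 = P - Q τ/2`.  `Q τ/2 = x 1 - P` is an algebraic integer, so its square
`- Q²/2` is, so `Q² /2` is an integer and `Q` is even. -/
def Zi2Stmt : Prop := ∀ (a : ℕ), 0 < a → ∀ ζ : ℂ, IsPrimitiveRoot ζ (2 ^ a) → ∀ (m : ℕ → ℤ)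
  (x : ℕ → ℂ), (∀ j, x j = ∑ i ∈ Finset.range (2 ^ a), (m i : ℂ) * ζ ^ (i * j)) →
  (∀ j : ℕ, ¬ 2 ∣ j → x (3 * j) = x j) →
  ∃ p q : ℤ, (∀ j : ℕ, ¬ 2 ∣ j → x j = p + sg8 j * q * r2) ∧ (a ≤ 2 → q = 0)

/-- VAL: the values of the fixed characters.

Proof.  `u ^ (2 ^ a) = 1` (exponent), `ζ` of order `2 ^ a`.  `T3.InrStmt` (`q = 2 ^ a`) and DPV:
`vv (u ^ j) χ = ∑ m_i ζ ^ (i j) = x j` for `j` odd (`b (u ^ j) = b u`, `d (u ^ j) = d u`,
`C(u ^ j) = C(u)`; `d u > 0`).  `x (3 j) = x j`: `gv M (Cu u) (u ^ (3 j)) b χ = gv M (Cu u) (u ^ j) b χ`,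
because `eh M b` vanishes at the singular elements (or `T5.KerStmt`) and for `s` regular in `C(u)`:
`u ^ (3 j) s = (u ^ j) ^ N s ^ N = (u ^ j s) ^ N`, compare `T2.VjcStmt` (`Helper*_AT2/VJC.lean`).  ZI2.
`p` is odd: `vv u χ = p + q r2`, `r2² = -2` has residue `0`, so `r2` (an algebraic integer) has residue
`0`, and `rr (vv u χ) ≠ 0` by HT2. -/
def ValStmt : Prop := ∀ (M : Ideal (integralClosure ℤ ℂ)) [M.IsMaximal],
  ((2 : ℕ) : integralClosure ℤ ℂ) ∈ M → ∀ (G : Type) [Group G] [Finite G] (N : ℕ), G3 G N →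
  ∀ (a : ℕ) (e : G → FF M) (V : Subgroup G) (γ : G → FF M) (b : G → G → FF M) (d : G → ℕ)
  (c : ℕ) (ε : G → ℤ) (y w : G), Sw M a e V γ b d c ε y w → ∀ χ ∈ Rf M N e, ∀ u, Rg V γ u →
  ∃ p q : ℤ, Vq M a b d u χ p q

/-- BDV: the congruences for two fixed characters.

Proof.  `f` from HCO, `f(v ^ 3) = f(v ^ N) = f(v)` on `V` (`G3.pow`).  For `j` odd, `k = 0, 1`,
`u = y w ^ k` (regular, RGW): `f(u ^ j) = (p_k + s q_k r2)(p0_k - s q0_k r2) =
p_k p0_k + 2 q_k q0_k + s (q_k p0_k - p_k q0_k) r2`, `s = sg8 j`, `(p_0, p_1) = (p, p')` etc.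
(`conj r2 = - r2`, `r2² = -2`, `conj` of an integer).  (1) AVP for `W = {1, w}` (`= zpowers w`; its
elements are squares): `(f(y) + f(y w))/2 = (B + D r2)/2` is in `RM M`,
`B = p p0 + p' p0' + 2 (q q0 + q' q0')`, `D = (q p0 - p q0) + (q' p0' - p' q0')`.  (2) AVP for
`W = {y ^ (4 i) w ^ k | i < 2 ^ (a-2), k < 2}` (`2 ^ (a-1)` different elements, RGW (iii); all are
squares; `W` is the closure of `{y ^ 4, w}`): `y y ^ (4 i) w ^ k = (y w ^ k) ^ (1 + 4 i)`, and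
`sg8 (1 + 4 i)` is `1` for `i` even and `-1` for `i` odd, so for `a ≥ 3` the terms with `r2` cancel, and for
`a = 2` all `q` are `0`: the average is `B/2`.  So `B/2 ∈ RM M` with residue `rr (f y) = rr (p p0) = 1`
(`r2` and `2` have residue `0`, `p, p0` are odd).  `B` is an integer, so `B` is even (`1/2 ∉ RM M`) and
`B/2` is odd.  From (1) `D r2/2 = (B + D r2)/2 - B/2` is in `RM M`, so `(D r2/2)² = - D²/2` is, so `D` is
even. -/
def BdvStmt : Prop := ∀ (M : Ideal (integralClosure ℤ ℂ)) [M.IsMaximal],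
  ((2 : ℕ) : integralClosure ℤ ℂ) ∈ M → ∀ (G : Type) [Group G] [Finite G] (N : ℕ), G3 G N →
  ∀ (a : ℕ) (e : G → FF M) (V : Subgroup G) (γ : G → FF M) (b : G → G → FF M) (d : G → ℕ)
  (c : ℕ) (ε : G → ℤ) (y w : G), Sw M a e V γ b d c ε y w → ∀ χ ∈ Rf M N e, ∀ ψ ∈ Rf M N e,
  ∀ p q p' q' p0 q0 p0' q0' : ℤ, Vq M a b d y χ p q → Vq M a b d (y * w) χ p' q' →
  Vq M a b d y ψ p0 q0 → Vq M a b d (y * w) ψ p0' q0' →
  (p * p0 + p' * p0' + 2 * (q * q0 + q' * q0')) % 4 = 2 ∧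
    (2 : ℤ) ∣ (q * p0 - p * q0) + (q' * p0' - p' * q0')

/-- ARW: arithmetic.

Proof.  `p0² + p0'² = 2` modulo `4`, so the second hypothesis gives `2 (q0² + q0'²) = 0` modulo `4`,
`q0 + q0'` is even.  The third one (all of `p, p', p0, p0'` are odd) gives that `q + q0 + q' + q0'` is
even, so `q + q'` is even and `q q0 + q' q0'` is even (all four parities: `q = q'`, `q0 = q0'` modulo
`2`).  So `p p0 + p' p0' = 2` modulo `4`, and `2 p' p0' = 2` modulo `4`.  Last claim: multiply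
`p p0 = p' p0'` with `p0` (`p0² = 1` modulo `8`): `p = p' (p0 p0')` modulo `4`. -/
def ArwStmt : Prop := ∀ p q p' q' p0 q0 p0' q0' : ℤ, Odd p → Odd p' → Odd p0 → Odd p0' →
  (p * p0 + p' * p0' + 2 * (q * q0 + q' * q0')) % 4 = 2 →
  (p0 * p0 + p0' * p0' + 2 * (q0 * q0 + q0' * q0')) % 4 = 2 →
  (2 : ℤ) ∣ (q * p0 - p * q0) + (q' * p0' - p' * q0') →
  p * p0 ≡ p' * p0' [ZMOD 4] ∧ ∀ s : ℤ, (s = 1 ∨ s = -1) → s ≡ p0 * p0' [ZMOD 4] →
    4 ≤ (p + s * p') ^ 2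

/-! ## 5. Bessel's inequality and the bound -/

/-- BWS: the norm of the sum.

Proof.  The `2 ^ a` elements `y ^ j`, `y ^ j w = (y w) ^ j`, `j < 2 ^ a` odd, are regular, different and no
two of them are conjugate under `T` (RGW).  `T8.DorStmt`: the vectors `(vv u χ)_χ` for these `u` are
orthogonal of norm squared `|V|`.  The vector in the claim is the sum of the first ones and `s` times
the sum of the other ones. -/
def BwsStmt : Prop := ∀ (M : Ideal (integralClosure ℤ ℂ)) [M.IsMaximal],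
  ((2 : ℕ) : integralClosure ℤ ℂ) ∈ M → ∀ (G : Type) [Group G] [Finite G] (a : ℕ) (e : G → FF M)
  (V : Subgroup G) (γ : G → FF M) (b : G → G → FF M) (d : G → ℕ) (c : ℕ) (ε : G → ℤ) (y w : G),
  Sw M a e V γ b d c ε y w → ∀ s : ℤ, s = 1 ∨ s = -1 →
  ∑ᶠ χ ∈ Irr G, Complex.normSq (∑ j ∈ (Finset.range (2 ^ a)).filter (fun j => ¬ 2 ∣ j),
    (vv M b d (y ^ j) χ + s * vv M b d ((y * w) ^ j) χ)) = 2 ^ a * Nat.card V

/-- NR3: the number of the fixed characters.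

Proof.  `R = Rf M N e`; let `R ≠ ∅`, `ψ ∈ R`, `p0, q0, p0', q0'` from VAL for `y`, `y w` (regular, RGW);
`s = ±1` with `s = p0 p0'` modulo `4`.  Let `χ ∈ R`, `p, q, p', q'` from VAL.  BDV for `(χ, ψ)` and for
`(ψ, ψ)`, ARW: `(p + s p')² ≥ 4`.  The sum over `j` in BWS is
`2 ^ (a-1) (p + s p') + (q + s q') r2 ∑_j sg8 j`; for `a ≥ 3` `∑_j sg8 j = 0` (the odd `j < 2 ^ a`), for
`a = 2` `q = q' = 0`.  So its norm squared is `4 ^ (a-1) (p + s p')² ≥ 4 ^ a`, and by BWS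
`|R| 4 ^ a ≤ 2 ^ a |V| ≤ 2 ^ a 4 ^ a`. -/
def Nr3Stmt : Prop := ∀ (M : Ideal (integralClosure ℤ ℂ)) [M.IsMaximal],
  ((2 : ℕ) : integralClosure ℤ ℂ) ∈ M → ∀ (G : Type) [Group G] [Finite G] (N : ℕ), G3 G N →
  ∀ (a : ℕ) (e : G → FF M) (V : Subgroup G) (γ : G → FF M) (b : G → G → FF M) (d : G → ℕ)
  (c : ℕ) (ε : G → ℤ) (y w : G), Sw M a e V γ b d c ε y w → (Rf M N e).ncard ≤ 2 ^ a

/-- LW2: the bound for the number of modular characters.

Proof.  `K9.InxStmt`, GTP.  `ix V γ = 1`: `ln e = 1` (LN1).  Otherwise: the data from `T8.DatStmt`, `N` from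
PR3, FX3 with ST3: `ln e ≤ |Rf M N e|`, NR3. -/
def Lw2Stmt : Prop := ∀ (M : Ideal (integralClosure ℤ ℂ)) [M.IsMaximal],
  ((2 : ℕ) : integralClosure ℤ ℂ) ∈ M → ∀ (G : Type) [Group G] [Finite G] (e : G → FF M)
  (V : Subgroup G) (γ : G → FF M), Ld 2 e V γ → ∀ a : ℕ, 2 ≤ a → Monoid.exponent V = 2 ^ a →
  (∃ x y : G, V = Subgroup.closure {x, y}) → ln e ≤ 2 ^ a

/-! ## 6. The theorem -/

/-- TWA: the main theorem for block idempotents, `ℓ = 2`.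

Proof.  As `T2.T2aStmt` (`Helper92_AT2/T2A.lean`), with `ℓ = 2` and the type: two generators, exponent
`2 ^ a`, `a ≥ 2` (closed under quotients of exponent `2 ^ a`: the images of two generators generate;
no condition on the inertial index).  Induction on `|G|`.  If `opCore 2 G ≠ ⊥`: `YzrStmt`.
Otherwise `T2.Ih` holds by induction; `T2.FstStmt`: `f`; `T2.TesStmt`:
`YY ⊤ e = |G| (ln e - ln f_X)`; `1 ≤ ln e, ln f_X ≤ 2 ^ a` (`K9.LbdStmt`, LW2 for `G` and for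
`X = N(U)`, `f_X`, `V_X`: `Fs.ld`, `V_X ≅ V`); `T2.DvxStmt`: `2 ^ a` divides `ln e - ln f_X`. -/
def TwaStmt : Prop := Tt 2

/-- FNZ: the final theorem for the prime `ℓ`, from the theorem for block idempotents.

Proof.  As `T2.Fn2Stmt` (`Helper*_AT2/FN2.lean`): `e` the block of `χ`, `p : G → G/Z`,
`Z = opCore ℓ G`.  `H75.altSum_central`: `|G| altSum χ = |Z|² YY ℓ ⊤ (push p e)`.  `T2.DzaStmt`:
`Ld ℓ (push p e) (D.map p) γ`.  `Tt ℓ`. -/
def FnzStmt : Prop := ∀ (ℓ : ℕ) [Fact ℓ.Prime], Tt ℓ → ∀ (M : Ideal (integralClosure ℤ ℂ))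
  [M.IsMaximal], (ℓ : integralClosure ℤ ℂ) ∈ M → ∀ (G : Type) [Group G] [Finite G],
  opCore ℓ G ≤ Subgroup.center G → ∀ χ ∈ Irr G, ∀ D : Subgroup G, ML.IsDef ℓ M χ D →
  (∀ x ∈ D, ∀ y ∈ D, x * y * x⁻¹ * y⁻¹ ∈ opCore ℓ G) → ∀ (A : Type) [Group A] [Finite A]
  (p : G →* A), Function.Surjective p → p.ker = opCore ℓ G → ∀ a : ℕ, 2 ≤ a →
  Monoid.exponent (D.map p) = ℓ ^ a → (∃ x y : A, D.map p = Subgroup.closure {x, y}) →
  altSum ℓ M χ = 0

end Pool.Agent.PP.TW
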